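import Mathlib

namespace Pool.Agent.Results.MP_066924_al.Bracket

open NormedSpace

/-- derivations of the algebra with product μ -/
def IsDer {𝕜 A : Type*} [Field 𝕜] [AddCommGroup A] [Module 𝕜 A] (μ : A →ₗ[𝕜] A →ₗ[𝕜] A)
    (D : Module.End 𝕜 A) : Prop := ∀ x y, D (μ x y) = μ (D x) y + μ x (D y)

/-- local derivations -/
def IsLocDer {𝕜 A : Type*} [Field 𝕜] [AddCommGroup A] [Module 𝕜 A] (μ : A →ₗ[𝕜] A →ₗ[𝕜] A)
    (Δ : Module.End 𝕜 A) : Prop := ∀ x, ∃ D, IsDer μ D ∧ Δ x = D x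

section
variable {𝕜 A : Type*} [RCLike 𝕜] [NormedAddCommGroup A] [NormedSpace 𝕜 A] [FiniteDimensional 𝕜 A]

lemma key (μ : A →ₗ[𝕜] A →ₗ[𝕜] A) (Δ D : Module.End 𝕜 A) (hΔ : IsLocDer μ Δ) (hD : IsDer μ D)
    (x : A) : ∃ D', IsDer μ D' ∧ Δ (D x) - D (Δ x) = D' x := by
  have : CompleteSpace A := FiniteDimensional.complete 𝕜 A
  let C : A →L[𝕜] A := LinearMap.toContinuousLinearMap D
  let m : A →L[𝕜] A →L[𝕜] A :=
    LinearMap.toContinuousLinearMap (LinearMap.toContinuousLinearMap.toLinearMap ∘ₗ μ)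
  have hm : ∀ u v, m u v = μ u v := fun _ _ => rfl
  have hC : ∀ u, C u = D u := fun _ => rfl
  have inv : ∀ (B : A →L[𝕜] A) (t : 𝕜) (u : A), exp (t • B) (exp (t • -B) u) = u := fun B t u => by
    have := exp_add_of_commute_of_mem_ball (𝕂 := 𝕜) (x := t • B) (y := t • -B)
      (((Commute.refl B).neg_right.smul_left t).smul_right t)
      ((expSeries_radius_eq_top 𝕜 (A →L[𝕜] A)).symm ▸ edist_lt_top _ _)
      ((expSeries_radius_eq_top 𝕜 (A →L[𝕜] A)).symm ▸ edist_lt_top _ _)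
    rw [smul_neg, add_neg_cancel, exp_zero, ← smul_neg] at this
    exact (congrArg (· u) this).symm
  have inv' : ∀ (t : 𝕜) (u : A), exp (t • -C) (exp (t • C) u) = u := fun t u => by
    simpa using inv (-C) t u
  have dE : ∀ (u : A) (t : 𝕜), HasDerivAt (fun s : 𝕜 => exp (s • C) u) (D (exp (t • C) u)) t :=
    fun u t => by simpa [hC] using (hasDerivAt_exp_smul_const' C t).clm_apply (hasDerivAt_const t u)
  have aut : ∀ (t : 𝕜) (u v : A),
      exp (t • -C) (μ (exp (t • C) u) (exp (t • C) v)) = μ u v := fun t u v => by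
    have d : ∀ s : 𝕜, HasDerivAt
        (fun s : 𝕜 => exp (s • -C) (m (exp (s • C) u) (exp (s • C) v))) 0 s := fun s => by
      have := (hasDerivAt_exp_smul_const (-C) s).clm_apply
        ((m.hasFDerivAt.comp_hasDerivAt s (dE u s)).clm_apply (dE v s))
      refine this.congr_deriv ?_
      show exp (s • -C) (-D (μ _ _)) + exp (s • -C) (μ _ _ + μ _ _) = 0
      rw [hD, map_neg, neg_add_cancel]
    have := is_const_of_deriv_eq_zero (fun s => (d s).differentiableAt) (fun s => (d s).deriv) t 0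
    simpa [hm] using this
  let W : Submodule 𝕜 A :=
    { carrier := {v | ∃ D', IsDer μ D' ∧ v = D' x}
      add_mem' := by
        rintro _ _ ⟨P, hP, rfl⟩ ⟨Q, hQ, rfl⟩
        exact ⟨P + Q, fun u v => by simp [hP u v, hQ u v]; abel, rfl⟩
      zero_mem' := ⟨0, fun u v => by simp, rfl⟩
      smul_mem' := by
        rintro c _ ⟨P, hP, rfl⟩
        exact ⟨c • P, fun u v => by simp [hP u v], rfl⟩ }
  have hW : ∀ t : 𝕜, exp (t • -C) (Δ (exp (t • C) x)) ∈ W := fun t => by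
    obtain ⟨P, hP, e⟩ := hΔ (exp (t • C) x)
    refine ⟨(exp (t • -C) : A →L[𝕜] A).toLinearMap * P * (exp (t • C) : A →L[𝕜] A).toLinearMap,
      fun u v => ?_, by simp [e]⟩
    have a1 : exp (t • C) (μ u v) = μ (exp (t • C) u) (exp (t • C) v) := by
      rw [← aut t u v, inv]
    have a2 : ∀ p q, exp (t • -C) (μ p q) = μ (exp (t • -C) p) (exp (t • -C) q) := fun p q => by
      rw [← aut t (exp (t • -C) p), inv, inv]
    simp only [Module.End.mul_apply, ContinuousLinearMap.coe_coe]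
    rw [a1, hP, map_add, a2, a2, inv', inv']
  by_contra hn
  obtain ⟨f, hf, hk⟩ := W.exists_le_ker_of_notMem (v := Δ (D x) - D (Δ x)) hn
  have d := (LinearMap.toContinuousLinearMap f).hasFDerivAt.comp_hasDerivAt (0 : 𝕜)
    ((hasDerivAt_exp_smul_const (-C) (0 : 𝕜)).clm_apply
      ((LinearMap.toContinuousLinearMap Δ).hasFDerivAt.comp_hasDerivAt (0 : 𝕜) (dE x 0)))
  have e := d.unique ((hasDerivAt_const (0 : 𝕜) (0 : 𝕜)).congr_of_eventuallyEq
    (Filter.Eventually.of_forall fun t => hk (hW t)))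
  apply hf
  rw [← e]
  simp [hC, sub_eq_neg_add]

end

/-- Local derivations of a finite-dimensional real or complex algebra are closed under
the commutator. -/
theorem result {𝕜 A : Type*} [RCLike 𝕜] [AddCommGroup A] [Module 𝕜 A] [FiniteDimensional 𝕜 A]
    (μ : A →ₗ[𝕜] A →ₗ[𝕜] A) (Δ₁ Δ₂ : Module.End 𝕜 A) (h₁ : IsLocDer μ Δ₁) (h₂ : IsLocDer μ Δ₂) :
    IsLocDer μ (Δ₁ * Δ₂ - Δ₂ * Δ₁) := by
  intro x
  let e := (Module.finBasis 𝕜 A).equivFun
  let := NormedAddCommGroup.induced A _ e e.injective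
  let := NormedSpace.induced 𝕜 A _ e
  obtain ⟨D₁, p₁, e₁⟩ := h₁ x
  obtain ⟨D₂, p₂, e₂⟩ := h₂ x
  obtain ⟨P, hP, eP⟩ := key μ Δ₁ D₂ h₁ p₂ x
  obtain ⟨Q, hQ, eQ⟩ := key μ Δ₂ D₁ h₂ p₁ x
  refine ⟨P - Q + (D₂ * D₁ - D₁ * D₂), fun u v => ?_, ?_⟩
  · simp [hP u v, hQ u v, p₁ u v, p₂ u v, p₁ _ _, p₂ _ _]
    abel
  · simp only [LinearMap.add_apply, LinearMap.sub_apply, Module.End.mul_apply, ← eP, ← eQ, e₁, e₂]
    abel

end Pool.Agent.Results.MP_066924_al.Bracket
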